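import Mathlib

open Filter Topology

set_option autoImplicit false

namespace Pool.Agent.Results.MP_59cc96_an.OperationalIsGenSum

variable {𝕜 : Type*} [RCLike 𝕜] {E : Type*} [NormedAddCommGroup E] [NormedSpace 𝕜 E]

/-- The space `P_(n)`, the linear span of the first `n` terms `x 0, ..., x (n - 1)`. -/
def P (𝕜 : Type*) [RCLike 𝕜] {E : Type*} [NormedAddCommGroup E] [NormedSpace 𝕜 E]
    (x : ℕ → E) (n : ℕ) : Submodule 𝕜 E :=
  Submodule.span 𝕜 (x '' Set.Iio n)

/-- The element `α 0 • x 0 + ... + α (n - 1) • x (n - 1)` of `P_(n)`. -/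
def psum (x : ℕ → E) (α : ℕ → 𝕜) (n : ℕ) : P 𝕜 x n :=
  ⟨∑ i ∈ Finset.range n, α i • x i, Submodule.sum_mem _ fun i hi =>
    Submodule.smul_mem _ _ (Submodule.subset_span ⟨i, Finset.mem_range.1 hi, rfl⟩)⟩

/-- The term `x i` as an element of `P_(n)` when `i < n` (and `0` for the finitely many
`n ≤ i`, where `x i` need not lie in `P_(n)`). -/
noncomputable def term (𝕜 : Type*) [RCLike 𝕜] {E : Type*} [NormedAddCommGroup E] [NormedSpace 𝕜 E]
    (x : ℕ → E) (i n : ℕ) : P 𝕜 x n :=
  if h : i < n then ⟨x i, Submodule.subset_span ⟨i, h, rfl⟩⟩ else 0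

/-- `x` is complete minimal with coefficient functionals `f`: its linear span is dense and
`f i (x j) = δ i j`. -/
structure CompleteMinimal (x : ℕ → E) (f : ℕ → E →L[𝕜] 𝕜) : Prop where
  dense : Dense (Submodule.span 𝕜 (Set.range x) : Set E)
  biorth : ∀ i j, f i (x j) = if i = j then 1 else 0

/-- `x` is an operational basis: it is complete minimal with functionals `f` and there are
endomorphisms `v n` of `P_(n)` with `v n (s n y) → y` for every `y`, where
`s n y = f 0 y • x 0 + ... + f (n - 1) y • x (n - 1)`. -/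
def IsOperationalBasis (𝕜 : Type*) [RCLike 𝕜] {E : Type*} [NormedAddCommGroup E]
    [NormedSpace 𝕜 E] (x : ℕ → E) : Prop :=
  ∃ f : ℕ → E →L[𝕜] 𝕜, CompleteMinimal x f ∧ ∃ v : ∀ n, P 𝕜 x n →ₗ[𝕜] P 𝕜 x n,
    ∀ y : E, Tendsto (fun n => (v n (psum x (fun i => f i y) n) : E)) atTop (𝓝 y)

/-- `x` is a generalized summation basis with respect to the endomorphisms `v n` of `P_(n)`:
`v n (x i) → x i` for every `i`, and every `y` has exactly one scalar sequence `α` with
`v n (α 0 • x 0 + ... + α (n - 1) • x (n - 1)) → y`. -/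
structure IsGenSumBasis (x : ℕ → E) (v : ∀ n, P 𝕜 x n →ₗ[𝕜] P 𝕜 x n) : Prop where
  tendsto_term : ∀ i, Tendsto (fun n => (v n (term 𝕜 x i n) : E)) atTop (𝓝 (x i))
  existsUnique : ∀ y : E, ∃! α : ℕ → 𝕜,
    Tendsto (fun n => (v n (psum x α n) : E)) atTop (𝓝 y)

lemma P_mono (x : ℕ → E) {m n : ℕ} (h : m ≤ n) : P 𝕜 x m ≤ P 𝕜 x n :=
  Submodule.span_mono (Set.image_mono (Set.Iio_subset_Iio h))

lemma exists_mem_P (x : ℕ → E) {z : E} (hz : z ∈ Submodule.span 𝕜 (Set.range x)) :
    ∃ n, z ∈ P 𝕜 x n := by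
  induction hz using Submodule.span_induction with
  | mem y hy =>
    obtain ⟨i, rfl⟩ := hy
    exact ⟨i + 1, Submodule.subset_span ⟨i, Nat.lt_succ_self i, rfl⟩⟩
  | zero => exact ⟨0, zero_mem _⟩
  | add y z _ _ hy hz =>
    obtain ⟨a, ha⟩ := hy
    obtain ⟨b, hb⟩ := hz
    exact ⟨max a b, add_mem (P_mono x (le_max_left _ _) ha) (P_mono x (le_max_right _ _) hb)⟩
  | smul c y _ hy =>
    obtain ⟨a, ha⟩ := hy
    exact ⟨a, Submodule.smul_mem _ _ ha⟩

/-- A vector of the span on which the functional takes the value `1`, of nearly minimal norm. -/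
lemma exists_good (x : ℕ → E) (f : ℕ → E →L[𝕜] 𝕜) (h : CompleteMinimal x f) (k : ℕ) :
    ∃ z ∈ Submodule.span 𝕜 (Set.range x), f k z = 1 ∧ ‖f k‖ * ‖z‖ ≤ 2 := by
  have hne : f k ≠ 0 := by
    intro h0
    have := h.biorth k k
    rw [h0] at this
    simp at this
  have hpos : 0 < ‖f k‖ := norm_pos_iff.2 hne
  have hU : IsOpen {y : E | ‖f k‖ * ‖y‖ < 2 * ‖f k y‖} :=
    isOpen_lt (by fun_prop) (by fun_prop)
  have hne' : ({y : E | ‖f k‖ * ‖y‖ < 2 * ‖f k y‖}).Nonempty := by
    by_contra hcon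
    rw [Set.not_nonempty_iff_eq_empty] at hcon
    have : ‖f k‖ ≤ ‖f k‖ / 2 := by
      refine ContinuousLinearMap.opNorm_le_bound _ (by positivity) fun y => ?_
      have hy : y ∉ {y : E | ‖f k‖ * ‖y‖ < 2 * ‖f k y‖} := by rw [hcon]; simp
      simp only [Set.mem_ofPred_eq, not_lt] at hy
      linarith
    linarith
  obtain ⟨y, hy, hys⟩ := h.dense.inter_open_nonempty _ hU hne'
  have hy' : ‖f k‖ * ‖y‖ < 2 * ‖f k y‖ := hy
  have hfy : f k y ≠ 0 := by
    intro h0
    rw [h0, norm_zero, mul_zero] at hy'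
    have := mul_nonneg hpos.le (norm_nonneg y)
    linarith
  refine ⟨(f k y)⁻¹ • y, Submodule.smul_mem _ _ hys, ?_, ?_⟩
  · rw [map_smul, smul_eq_mul, inv_mul_cancel₀ hfy]
  · rw [norm_smul, norm_inv]
    have hpos' : 0 < ‖f k y‖ := norm_pos_iff.2 hfy
    rw [mul_left_comm, inv_mul_le_iff₀ hpos']
    linarith

/-- **Every operational basis of a Banach space is a generalized summation basis.** -/
theorem result {𝕜 : Type*} [RCLike 𝕜] {E : Type*} [NormedAddCommGroup E] [NormedSpace 𝕜 E]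
    [CompleteSpace E] (x : ℕ → E) (hx : IsOperationalBasis 𝕜 x) :
    ∃ v' : ∀ n, P 𝕜 x n →ₗ[𝕜] P 𝕜 x n, IsGenSumBasis x v' := by
  classical
  obtain ⟨f, hcm, v, hv⟩ := hx
  choose z hz hfz hnz using exists_good x f hcm
  choose N hN using fun k => exists_mem_P x (hz k)
  -- the correction at stage `n` in the direction `z k`
  let corr : ∀ n k, z k ∈ P 𝕜 x n → (P 𝕜 x n →ₗ[𝕜] P 𝕜 x n) := fun n k hk =>
    ((f k : E →ₗ[𝕜] 𝕜) ∘ₗ (P 𝕜 x n).subtype -
      (f k : E →ₗ[𝕜] 𝕜) ∘ₗ (P 𝕜 x n).subtype ∘ₗ v n).smulRight ⟨z k, hk⟩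
  let idx : ℕ → ℕ := fun n => (Nat.unpair n).1
  have hmem : ∀ n k, N k ≤ n → z k ∈ P 𝕜 x n := fun n k h => P_mono x h (hN k)
  let v' : ∀ n, P 𝕜 x n →ₗ[𝕜] P 𝕜 x n := fun n =>
    if h : N (idx n) ≤ n ∧ idx n < n then v n + corr n (idx n) (hmem n _ h.1) else v n
  have hv'1 : ∀ n, ∀ h : N (idx n) ≤ n ∧ idx n < n, ∀ w : P 𝕜 x n,
      (v' n w : E) = v n w + (f (idx n) w - f (idx n) (v n w)) • z (idx n) := by
    intro n h w
    simp only [v', dif_pos h, corr]
    simp
  have hv'2 : ∀ n, ¬ (N (idx n) ≤ n ∧ idx n < n) → ∀ w : P 𝕜 x n,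
      (v' n w : E) = v n w := by
    intro n h w
    simp only [v', dif_neg h]
  -- coefficients of partial sums
  have hfp : ∀ (α : ℕ → 𝕜) (n k : ℕ), k < n → f k (psum x α n : E) = α k := by
    intro α n k hk
    simp only [psum, map_sum, map_smul, smul_eq_mul, hcm.biorth]
    rw [Finset.sum_eq_single k]
    · simp
    · intro j _ hj
      simp [Ne.symm hj]
    · intro h
      exact absurd (Finset.mem_range.2 hk) h
  -- reproduction
  have hrep : ∀ n, N (idx n) ≤ n ∧ idx n < n → ∀ w : P 𝕜 x n,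
      f (idx n) (v' n w : E) = f (idx n) w := by
    intro n h w
    rw [hv'1 n h w, map_add, map_smul, hfz, smul_eq_mul, mul_one]
    ring
  -- convergence
  have hconv : ∀ y : E, Tendsto (fun n => (v' n (psum x (fun i => f i y) n) : E)) atTop (𝓝 y) := by
    intro y
    have h0 : Tendsto (fun n => ‖y - (v n (psum x (fun i => f i y) n) : E)‖) atTop (𝓝 0) := by
      have := (tendsto_const_nhds (x := y)).sub (hv y)
      rw [sub_self] at this
      exact tendsto_zero_iff_norm_tendsto_zero.1 this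
    rw [tendsto_iff_norm_sub_tendsto_zero]
    have h3 : Tendsto (fun n => 3 * ‖y - (v n (psum x (fun i => f i y) n) : E)‖) atTop (𝓝 0) := by
      simpa using h0.const_mul 3
    refine squeeze_zero (fun n => norm_nonneg _) (fun n => ?_) h3
    set w := psum x (fun i => f i y) n with hw
    by_cases h : N (idx n) ≤ n ∧ idx n < n
    · rw [hv'1 n h]
      have h1 : f (idx n) (w : E) = f (idx n) y := hfp _ _ _ h.2
      have h2 : (v n w : E) + (f (idx n) w - f (idx n) (v n w)) • z (idx n) - y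
          = -(y - (v n w : E)) + (f (idx n) (y - (v n w : E))) • z (idx n) := by
        rw [h1, map_sub]
        abel
      rw [h2]
      refine (norm_add_le _ _).trans ?_
      rw [norm_neg, norm_smul]
      have h4 : ‖f (idx n) (y - (v n w : E))‖ ≤ ‖f (idx n)‖ * ‖y - (v n w : E)‖ :=
        ContinuousLinearMap.le_opNorm _ _
      have h5 : ‖f (idx n) (y - (v n w : E))‖ * ‖z (idx n)‖ ≤
          ‖f (idx n)‖ * ‖y - (v n w : E)‖ * ‖z (idx n)‖ :=
        mul_le_mul_of_nonneg_right h4 (norm_nonneg _)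
      have h6 : ‖f (idx n)‖ * ‖y - (v n w : E)‖ * ‖z (idx n)‖ ≤ 2 * ‖y - (v n w : E)‖ := by
        have := mul_le_mul_of_nonneg_right (hnz (idx n)) (norm_nonneg (y - (v n w : E)))
        linarith
      linarith
    · rw [hv'2 n h, norm_sub_rev]
      have := norm_nonneg (y - (v n w : E))
      linarith
  refine ⟨v', ⟨fun i => ?_, fun y => ⟨fun i => f i y, hconv y, ?_⟩⟩⟩
  · have h1 := hconv (x i)
    refine h1.congr' ?_
    filter_upwards [eventually_gt_atTop i] with n hn
    have : psum x (fun j => f j (x i)) n = term 𝕜 x i n := by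
      apply Subtype.ext
      simp only [psum, term, dif_pos hn, hcm.biorth]
      rw [Finset.sum_eq_single i]
      · simp
      · intro j _ hj
        simp [hj]
      · intro h
        exact absurd (Finset.mem_range.2 hn) h
    rw [this]
  · intro α hα
    funext k
    have h1 : Tendsto (fun n => f k (v' n (psum x α n) : E)) atTop (𝓝 (f k y)) :=
      ((f k).continuous.tendsto y).comp hα
    -- infinitely many stages reproduce the `k`-th coefficient
    have h2 : Tendsto (fun m => Nat.pair k m) atTop atTop :=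
      tendsto_atTop_mono (fun m => Nat.right_le_pair k m) tendsto_id
    have h3 := h1.comp h2
    have h4 : Tendsto (fun _ : ℕ => α k) atTop (𝓝 (f k y)) := by
      refine h3.congr' ?_
      filter_upwards [eventually_ge_atTop (N k), eventually_gt_atTop k] with m hm1 hm2
      have hi : idx (Nat.pair k m) = k := by simp [idx]
      have hle : m ≤ Nat.pair k m := Nat.right_le_pair k m
      have hcond : N (idx (Nat.pair k m)) ≤ Nat.pair k m ∧ idx (Nat.pair k m) < Nat.pair k m := by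
        rw [hi]
        exact ⟨hm1.trans hle, lt_of_lt_of_le hm2 hle⟩
      have h5 := hrep _ hcond (psum x α (Nat.pair k m))
      rw [hi] at h5
      simp only [Function.comp]
      rw [h5, hfp _ _ _ (lt_of_lt_of_le hm2 hle)]
    exact tendsto_nhds_unique tendsto_const_nhds h4

end Pool.Agent.Results.MP_59cc96_an.OperationalIsGenSum
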